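import Pool.Agent.H64.STM.Targets

/-!
# EVC: contractions, and symmetries of the pairing
-/

set_option autoImplicit false

open Matrix Pool.Agent.H64.CC Pool.Agent.H2.NL Pool.Agent.H2.KM Pool.Agent.H64.EV Pool.Agent.H64.FTM
  Pool.Agent.H64.STM

namespace Pool.Agent.H73.STM

section

variable {K : Type} [Field K] {I : Type}

theorem evc_omk_append [Fintype I] (Ω : Matrix I I K) (k : ℕ) : ∀ (u : List I) (x y : I),
    u.length = 2 * k → omk Ω (k + 1) (u ++ [x, y]) = omk Ω k u * Ω x y := by
  induction k with
  | zero =>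
    intro u x y hu
    have : u = [] := List.length_eq_zero_iff.1 (by simpa using hu)
    subst this
    show two Ω [x, y] * (1 : K) = 1 * Ω x y
    rw [mul_one, one_mul]
    rfl
  | succ k ih =>
    intro u x y hu
    match u, hu with
    | [], hu => simp at hu
    | [a], hu => simp at hu; omega
    | a :: b :: u', hu =>
      have hu' : u'.length = 2 * k := by simp at hu; omega
      show two Ω [a, b] * omk Ω (k + 1) (u' ++ [x, y]) = (two Ω [a, b] * omk Ω k u') * Ω x y
      rw [ih u' x y hu', mul_assoc]

theorem evc_odds (o : I → Bool) : ∀ (m : ℕ) (w : Fin m → I),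
    odds o (List.ofFn w) = ∑ i, if o (w i) = true then 1 else 0 := by
  intro m
  induction m with
  | zero => intro w; rfl
  | succ m ih =>
    intro w
    rw [List.ofFn_succ, Fin.sum_univ_succ, ← ih]
    unfold odds
    cases h : o (w 0)
    · simp [h]
    · simp [h, add_comm]

theorem evc_omk_even [Fintype I] [DecidableEq I] (F : OForm K I) (k : ℕ) : ∀ l : List I,
    l.length = 2 * k → omk F.ω k l ≠ 0 → Even (odds F.o l) := by
  induction k with
  | zero =>
    intro l hl _
    have : l = [] := List.length_eq_zero_iff.1 (by simpa using hl)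
    subst this
    exact ⟨0, rfl⟩
  | succ k ih =>
    intro l hl h
    match l, hl, h with
    | [], hl, _ => simp at hl
    | [a], hl, _ => simp at hl; omega
    | a :: b :: l', hl, h =>
      have hl' : l'.length = 2 * k := by simp at hl; omega
      have h' : F.ω a b * omk F.ω k l' ≠ 0 := h
      have h1 : F.ω a b ≠ 0 := left_ne_zero_of_mul h'
      have h2 := ih l' hl' (right_ne_zero_of_mul h')
      have h3 : b = F.st a := by
        by_contra h4
        apply h1
        rw [OForm.ω, Matrix.of_apply, if_neg h4]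
      have h5 : F.o b = F.o a := by rw [h3, F.o_st]
      unfold odds at h2 ⊢
      cases h6 : F.o a
      · rw [h6] at h5
        simpa [h5, h6] using h2
      · rw [h6] at h5
        have : (List.filter F.o (a :: b :: l')).length = (List.filter F.o l').length + 2 := by
          simp [h5, h6]
        rw [this]
        exact h2.add ⟨1, rfl⟩

theorem evc_sgprod (o : I → Bool) {m : ℕ} (w : Fin m → I) :
    ∏ i, sg K (o (w i)) = (-1) ^ odds o (List.ofFn w) := by
  rw [evc_odds, ← Finset.prod_pow_eq_pow_sum]
  refine Finset.prod_congr rfl fun i _ => ?_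
  unfold sg
  split_ifs <;> simp

theorem evc_rev {m : ℕ} (v : Fin (m + 1) → I) :
    List.ofFn (fun i => v i.rev) = List.ofFn (fun i : Fin m => v i.rev.succ) ++ [v 0] := by
  rw [List.ofFn_succ', List.concat_eq_append, Fin.rev_last]
  simp only [Fin.rev_castSucc]

theorem evc_dg [Fintype I] [DecidableEq I] (F : OForm K I) (k : ℕ) (a b : I)
    (w : Fin (2 * k) → I) :
    rvf (dg F (k + 1)) (fun i : Fin (2 * k + 1 + 1) =>
      F.st ((Fin.cons a (Fin.cons b w : Fin (2 * k + 1) → I) : Fin (2 * k + 1 + 1) → I) i)) =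
      rvf (dg F k) (fun i => F.st (w i)) * F.ω (F.st b) (F.st a) := by
  have h1 := evc_rev (fun i : Fin (2 * k + 1 + 1) =>
    F.st ((Fin.cons a (Fin.cons b w : Fin (2 * k + 1) → I) : Fin (2 * k + 1 + 1) → I) i))
  have h2 := evc_rev (fun i : Fin (2 * k + 1) =>
    F.st ((Fin.cons b w : Fin (2 * k + 1) → I) i))
  simp only [Fin.cons_succ, Fin.cons_zero] at h1 h2
  rw [h2, List.append_assoc] at h1
  show omk F.ω (k + 1) (List.ofFn fun i : Fin (2 * k + 1 + 1) =>
    F.st ((Fin.cons a (Fin.cons b w : Fin (2 * k + 1) → I) : Fin (2 * k + 1 + 1) → I) i.rev)) =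
    omk F.ω k (List.ofFn fun i => F.st (w i.rev)) * F.ω (F.st b) (F.st a)
  rw [h1]
  exact evc_omk_append F.ω k _ _ _ (List.length_ofFn)

end

/-- EVC: contractions, and symmetries of the pairing. -/
theorem pf_EVC : T_EVC := by
  intro K _ I _ _ F
  refine ⟨?_, ?_, ?_, ?_, ?_⟩
  · intro m t
    funext w
    have h := F.con_append [] t (List.ofFn w)
    refine h.trans ?_
    refine Finset.sum_congr rfl fun a _ => ?_
    show F.c a * t (a :: F.st a :: List.ofFn w) =
      F.c a * t (List.ofFn (Fin.cons a (Fin.cons (F.st a) w) : Fin (m + 2) → I))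
    rw [List.ofFn_succ, List.ofFn_succ]
    rfl
  · intro k
    induction k with
    | zero =>
      intro f
      show ∑ w : Fin 0 → I, _ = f Fin.elim0
      rw [Fintype.sum_eq_single (Fin.elim0 : Fin 0 → I)
        (fun w hw => absurd (Subsingleton.elim w _) hw)]
      simp [rvf, dg, ev, omk]
    | succ k ih =>
      intro f
      show ∑ w : Fin (2 * k + 1 + 1) → I, _ = itf F k (cf F f)
      rw [← ih (cf F f)]
      rw [← (Fin.consEquiv (fun _ : Fin (2 * k + 1 + 1) => I)).sum_comp, Fintype.sum_prod_type]
      have h1 : ∀ a : I, ∑ w : Fin (2 * k + 1) → I,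
          (∏ i : Fin (2 * k + 1 + 1), F.c ((Fin.consEquiv (fun _ : Fin (2 * k + 1 + 1) => I)) (a, w) i)) *
            f ((Fin.consEquiv (fun _ : Fin (2 * k + 1 + 1) => I)) (a, w)) *
            rvf (dg F (k + 1)) (fun i =>
              F.st ((Fin.consEquiv (fun _ : Fin (2 * k + 1 + 1) => I)) (a, w) i)) =
          ∑ w : Fin (2 * k) → I, (∏ i, F.c (w i)) *
            (F.c a * f (Fin.cons a (Fin.cons (F.st a) w))) *
            rvf (dg F k) (fun i => F.st (w i)) := by
        intro a
        rw [← (Fin.consEquiv (fun _ : Fin (2 * k + 1) => I)).sum_comp, Fintype.sum_prod_type,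
          Finset.sum_comm]
        refine Finset.sum_congr rfl fun w _ => ?_
        have hcons : ∀ b : I, (Fin.consEquiv (fun _ : Fin (2 * k + 1 + 1) => I))
            (a, (Fin.consEquiv (fun _ : Fin (2 * k + 1) => I)) (b, w)) =
            (Fin.cons a (Fin.cons b w : Fin (2 * k + 1) → I) : Fin (2 * k + 1 + 1) → I) :=
          fun b => rfl
        rw [Finset.sum_eq_single (F.st a)]
        · rw [hcons]
          refine (congrArg (fun z => _ * z) (evc_dg F k a (F.st a) w)).trans ?_
          rw [OForm.ω, Matrix.of_apply, if_pos (F.st_st _).symm,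
            Fin.prod_univ_succ, Fin.prod_univ_succ]
          simp only [Fin.cons_zero, Fin.cons_succ]
          have hc := F.c_ne (F.st a)
          field_simp
        · intro b _ hb
          rw [hcons]
          refine (congrArg (fun z => _ * z) (evc_dg F k a b w)).trans ?_
          rw [OForm.ω, Matrix.of_apply, if_neg, mul_zero, mul_zero]
          intro h
          rw [F.st_st] at h
          exact hb h.symm
        · intro h
          exact absurd (Finset.mem_univ _) h
      refine (Finset.sum_congr rfl fun a _ => h1 a).trans ?_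
      rw [Finset.sum_comm]
      refine Finset.sum_congr rfl fun w _ => ?_
      rw [← Finset.sum_mul, ← Finset.mul_sum]
      rfl
  · intro m f g
    unfold pr rvf
    rw [← (Equiv.arrowCongr (Fin.revPerm (n := m)) (Equiv.refl I)).sum_comp]
    refine Finset.sum_congr rfl fun w _ => ?_
    have e2 : (Equiv.arrowCongr (Fin.revPerm (n := m)) (Equiv.refl I)) w = fun i => w i.rev := by
      funext i
      rfl
    rw [e2]
    have e3 : ∏ i, F.c (w (Fin.rev i)) = ∏ i, F.c (w i) :=
      Equiv.prod_comp (Fin.revPerm (n := m)) fun i => F.c (w i)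
    rw [e3]
    simp only [Fin.rev_rev]
  · intro m f g hf
    unfold pr
    rw [← (Equiv.arrowCongr (Equiv.refl (Fin m)) (⟨F.st, F.st, F.st_st, F.st_st⟩ : Equiv.Perm I)).sum_comp
      (fun w => (∏ i, F.c (w i)) * g w * f fun i => F.st (w i))]
    refine Finset.sum_congr rfl fun w _ => ?_
    have e2 : (Equiv.arrowCongr (Equiv.refl (Fin m))
        (⟨F.st, F.st, F.st_st, F.st_st⟩ : Equiv.Perm I)) w = fun i => F.st (w i) := by
      funext i
      rfl
    rw [e2]
    simp only [F.st_st, F.c_st, Finset.prod_mul_distrib]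
    by_cases h : f w = 0
    · rw [h, mul_zero, zero_mul, mul_zero]
    · rw [evc_sgprod, (hf w h).neg_one_pow]
      ring
  · intro k σ w h
    have h1 : dg F k (fun i => w (σ i)) ≠ 0 := right_ne_zero_of_mul h
    have h2 := evc_omk_even F k _ (List.length_ofFn) h1
    rw [evc_odds] at h2 ⊢
    rwa [Equiv.sum_comp σ (fun i => if F.o (w i) = true then 1 else 0)] at h2

end Pool.Agent.H73.STM
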